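import Mathlib

namespace Pool.Agent.Results.MP_9067ea_co.Lower

open Finset

/-- The word `w` contains every word of `k` distinct letters as a subsequence. -/
def ContainsAll {n : ℕ} (k : ℕ) (w : List (Fin n)) : Prop :=
  ∀ p : List (Fin n), p.Nodup → p.length = k → p.Sublist w

variable {α : Type} [DecidableEq α]

lemma sub_cons (a : α) (p u v : List α) (ha : a ∉ u) (h : (a :: p).Sublist (u ++ a :: v)) :
    p.Sublist v := by
  induction u with
  | nil => exact List.cons_sublist_cons.1 h
  | cons b u ih =>
    rw [List.cons_append] at h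
    cases h with
    | cons _ h => exact ih (fun h' => ha (List.mem_cons_of_mem _ h')) h
    | cons_cons _ h => exact absurd List.mem_cons_self ha

lemma sub_snoc (a : α) (p u v : List α) (ha : a ∉ v) (h : (p ++ [a]).Sublist (u ++ a :: v)) :
    p.Sublist u := by
  have h' := List.reverse_sublist.2 h
  simp only [List.reverse_append, List.reverse_cons, List.reverse_nil, List.nil_append,
    List.singleton_append, List.append_assoc] at h'
  exact List.reverse_sublist.1 (sub_cons a _ _ _ (by simpa using ha) h')

def cnt (X : Finset α) (w : List α) : ℕ := w.countP fun x => x ∈ X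

lemma cnt_erase (X : Finset α) (a : α) (ha : a ∈ X) (w : List α) :
    cnt X w = cnt (X.erase a) w + w.count a := by
  induction w with
  | nil => simp [cnt]
  | cons b w ih =>
    simp only [cnt, List.countP_cons, List.count_cons] at ih ⊢
    by_cases h : b = a
    · subst h; simp [ha, ih]; omega
    · simp [h, ih]; omega

lemma card_le_cnt (X : Finset α) (w : List α) (h : ∀ x ∈ X, x ∈ w) : X.card ≤ cnt X w := by
  rw [cnt, List.countP_eq_length_filter]
  refine le_trans (card_le_card fun x hx => ?_) (List.toFinset_card_le _)
  simp [h x hx, hx]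

lemma main (k : ℕ) : ∀ (X : Finset α) (w : List α), k ≤ X.card →
    (∀ p : List α, p.Nodup → p.length = k → (∀ x ∈ p, x ∈ X) → p.Sublist w) →
    k * X.card + (k - 2) ≤ cnt X w + k.choose 2 := by
  induction k with
  | zero => simp
  | succ k ih =>
    intro X w hk h
    have hw : ∀ x ∈ X, x ∈ w := by
      intro x hx
      obtain ⟨D, hD, hD2⟩ := exists_subset_card_eq (s := X.erase x) (n := k)
        (by rw [card_erase_of_mem hx]; omega)
      refine (h (x :: D.toList) ?_ (by simp [hD2]) ?_).subset List.mem_cons_self
      · exact List.nodup_cons.2 ⟨fun h' => by simpa using hD (mem_toList.1 h'), D.nodup_toList⟩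
      · intro y hy
        rcases List.mem_cons.1 hy with rfl | hy
        · exact hx
        · exact mem_of_mem_erase (hD (mem_toList.1 hy))
    obtain ⟨a, ha, hmax⟩ := exists_max_image X (fun x => w.idxOf x) (card_pos.1 (by omega))
    obtain ⟨u, v, rfl, hu⟩ := List.eq_append_cons_of_mem (hw a ha)
    have hu2 : ∀ x ∈ X.erase a, x ∈ u := by
      intro x hx
      obtain ⟨h1, h2⟩ := mem_erase.1 hx
      by_contra hc
      have := hmax x h2
      simp only [List.idxOf_append_of_notMem hc, List.idxOf_append_of_notMem hu,
        List.idxOf_cons_self, List.idxOf_cons_ne _ (Ne.symm h1)] at this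
      omega
    obtain ⟨m, hm⟩ : ∃ m, X.card = m + 1 := ⟨X.card - 1, by omega⟩
    have hc : (X.erase a).card = m := by rw [card_erase_of_mem ha]; omega
    have h1 := card_le_cnt _ u hu2
    have hna : ∀ p : List α, (∀ x ∈ p, x ∈ X.erase a) → a ∉ p := fun p hp h' => by
      simpa using hp a h'
    have h2 := ih (X.erase a) v (by omega) fun p p1 p2 p3 => sub_cons a p u v hu
      (h _ (List.nodup_cons.2 ⟨hna p p3, p1⟩) (by simp [p2]) fun x hx => by
        rcases List.mem_cons.1 hx with rfl | hx
        · exact ha
        · exact mem_of_mem_erase (p3 x hx))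
    have h3 : cnt X (u ++ a :: v) = cnt X u + 1 + cnt X v := by
      simp [cnt, List.countP_append, ha]; omega
    have h4 := cnt_erase X a ha u
    have h5 := cnt_erase X a ha v
    have h6 : (k + 1).choose 2 = k.choose 2 + k := by
      rw [Nat.choose_succ_succ' k 1]; simp; omega
    rw [hc] at h1 h2
    rw [h3, h6, hm, show (k + 1) * (m + 1) = k * m + k + m + 1 by ring]
    by_cases hv : a ∈ v
    · have := List.count_pos_iff.2 hv
      omega
    · rcases lt_or_ge k 2 with hk2 | hk2
      · omega
      · have h7 := ih (X.erase a) u (by omega) fun p p1 p2 p3 => sub_snoc a p u v hv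
          (h _ (List.nodup_append.2 ⟨p1, by simp, fun x hx y hy e => by
            rw [List.mem_singleton.1 hy] at e
            exact hna p p3 (e ▸ hx)⟩) (by simp [p2]) fun x hx => by
            rcases List.mem_append.1 hx with hx | hx
            · exact mem_of_mem_erase (p3 x hx)
            · rw [List.mem_singleton.1 hx]; exact ha)
        rw [hc] at h7
        have h8 : k.choose 2 * 2 ≤ k * (k - 1) := by
          rw [Nat.choose_two_right]; exact Nat.div_mul_le_self _ _
        obtain ⟨j, rfl⟩ : ∃ j, k = j + 2 := ⟨k - 2, by omega⟩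
        have h9 : m + 1 ≤ cnt (X.erase a) u := by
          simp only [Nat.add_sub_cancel, show j + 2 - 1 = j + 1 by omega] at h7 h8
          have : j + 2 ≤ m := by omega
          nlinarith [Nat.mul_le_mul_left (j + 1) this]
        omega

lemma split (a : α) (p q u v z : List α) (hv : a ∉ v)
    (h : (p ++ a :: q).Sublist (u ++ a :: (v ++ a :: z))) : p.Sublist u ∨ q.Sublist z := by
  rw [show u ++ a :: (v ++ a :: z) = (u ++ [a]) ++ (v ++ a :: z) by simp] at h
  obtain ⟨l1, l2, e, h1, h2⟩ := List.sublist_append_iff.1 h
  rcases List.append_eq_append_iff.1 e with ⟨t, rfl, e2⟩ | ⟨t, rfl, rfl⟩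
  · cases t with
    | nil =>
      rw [List.nil_append] at e2
      subst e2
      exact Or.inr (sub_cons a q v z hv h2)
    | cons b t =>
      obtain ⟨rfl, -⟩ := List.cons.inj e2
      refine Or.inl (sub_snoc a p u [] (by simp) (List.Sublist.trans ?_ h1))
      simp
  · exact Or.inr (sub_cons a q v z hv ((List.sublist_append_right _ _).trans h2))

omit [DecidableEq α] in
lemma no_both (x y : α) (l : List α) (hl : l.Nodup) (h1 : [x, y].Sublist l)
    (h2 : [y, x].Sublist l) : False := by
  induction l with
  | nil => simp at h1
  | cons b l ih =>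
    obtain ⟨hb, hl'⟩ := List.nodup_cons.1 hl
    rcases List.sublist_cons_iff.1 h1 with k1 | ⟨r, e, k1⟩ <;>
      rcases List.sublist_cons_iff.1 h2 with k2 | ⟨r', e', k2⟩
    · exact ih hl' k1 k2
    · obtain ⟨rfl, -⟩ := List.cons.inj e'
      exact hb (k1.subset (by simp))
    · obtain ⟨rfl, -⟩ := List.cons.inj e
      exact hb (k2.subset (by simp))
    · obtain ⟨rfl, rfl⟩ := List.cons.inj e
      obtain ⟨rfl, -⟩ := List.cons.inj e'
      exact hb (k1.subset (by simp))

lemma no_both' (X : Finset α) (u : List α) (h : ∀ x ∈ X, x ∈ u) (hc : cnt X u ≤ X.card)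
    (x y : α) (hx : x ∈ X) (hy : y ∈ X) (h1 : [x, y].Sublist u) (h2 : [y, x].Sublist u) :
    False := by
  have e : (u.filter fun x => x ∈ X).toFinset = X := by
    ext z; simp only [List.mem_toFinset, List.mem_filter, decide_eq_true_eq]
    exact ⟨fun h' => h'.2, fun h' => ⟨h z h', h'⟩⟩
  have hn : (u.filter fun x => x ∈ X).Nodup := by
    rw [cnt, List.countP_eq_length_filter] at hc
    have h3 := List.card_toFinset (u.filter fun x => x ∈ X)
    rw [e] at h3
    have h4 := (List.dedup_sublist (u.filter fun x => x ∈ X)).eq_of_length_le (by omega)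
    rw [← h4]; exact List.nodup_dedup _
  refine no_both x y _ hn ?_ ?_
  · simpa [hx, hy] using h1.filter fun x => x ∈ X
  · simpa [hx, hy] using h2.filter fun x => x ∈ X

lemma main2 (k : ℕ) : ∀ (X : Finset α) (w : List α), k ≤ X.card →
    (∀ p : List α, p.Nodup → p.length = k → (∀ x ∈ p, x ∈ X) → p.Sublist w) →
    k * X.card + (k - 2) + (k - 4) ≤ cnt X w + k.choose 2 := by
  induction k with
  | zero => simp
  | succ k ih =>
    intro X w hk h
    have hw : ∀ x ∈ X, x ∈ w := by
      intro x hx
      obtain ⟨D, hD, hD2⟩ := exists_subset_card_eq (s := X.erase x) (n := k)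
        (by rw [card_erase_of_mem hx]; omega)
      refine (h (x :: D.toList) ?_ (by simp [hD2]) ?_).subset List.mem_cons_self
      · exact List.nodup_cons.2 ⟨fun h' => by simpa using hD (mem_toList.1 h'), D.nodup_toList⟩
      · intro y hy
        rcases List.mem_cons.1 hy with rfl | hy
        · exact hx
        · exact mem_of_mem_erase (hD (mem_toList.1 hy))
    obtain ⟨a, ha, hmax⟩ := exists_max_image X (fun x => w.idxOf x) (card_pos.1 (by omega))
    obtain ⟨u, v, rfl, hu⟩ := List.eq_append_cons_of_mem (hw a ha)
    have hu2 : ∀ x ∈ X.erase a, x ∈ u := by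
      intro x hx
      obtain ⟨h1, h2⟩ := mem_erase.1 hx
      by_contra hc
      have := hmax x h2
      simp only [List.idxOf_append_of_notMem hc, List.idxOf_append_of_notMem hu,
        List.idxOf_cons_self, List.idxOf_cons_ne _ (Ne.symm h1)] at this
      omega
    obtain ⟨m, hm⟩ : ∃ m, X.card = m + 1 := ⟨X.card - 1, by omega⟩
    have hc : (X.erase a).card = m := by rw [card_erase_of_mem ha]; omega
    have h1 := card_le_cnt _ u hu2
    have hna : ∀ p : List α, (∀ x ∈ p, x ∈ X.erase a) → a ∉ p := fun p hp h' => by
      simpa using hp a h'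
    have h2 := ih (X.erase a) v (by omega) fun p p1 p2 p3 => sub_cons a p u v hu
      (h _ (List.nodup_cons.2 ⟨hna p p3, p1⟩) (by simp [p2]) fun x hx => by
        rcases List.mem_cons.1 hx with rfl | hx
        · exact ha
        · exact mem_of_mem_erase (p3 x hx))
    have h3 : cnt X (u ++ a :: v) = cnt X u + 1 + cnt X v := by
      simp [cnt, List.countP_append, ha]; omega
    have h4 := cnt_erase X a ha u
    have h5 := cnt_erase X a ha v
    have h6 : (k + 1).choose 2 = k.choose 2 + k := by
      rw [Nat.choose_succ_succ' k 1]; simp; omega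
    rw [hc] at h1 h2
    rw [h3, h6, hm, show (k + 1) * (m + 1) = k * m + k + m + 1 by ring]
    by_cases hv : a ∈ v
    · have hp := List.count_pos_iff.2 hv
      by_contra hcon
      have hk4 : 4 ≤ k := by omega
      have hu3 : cnt (X.erase a) u ≤ (X.erase a).card := by omega
      have ht : v.count a ≤ 1 := by omega
      obtain ⟨v, z, rfl, hv1⟩ := List.eq_append_cons_of_mem hv
      have hz : a ∉ z := fun h' => by
        have := List.count_pos_iff.2 h'
        simp [List.count_append] at ht
        omega
      have g1 := ih (X.erase a) (u ++ a :: v) (by omega) fun p p1 p2 p3 =>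
        sub_snoc a p (u ++ a :: v) z hz (by
          rw [List.append_assoc]
          exact h _ (List.nodup_append.2 ⟨p1, by simp, fun x hx y hy e => by
            rw [List.mem_singleton.1 hy] at e
            exact hna p p3 (e ▸ hx)⟩) (by simp [p2]) fun x hx => by
            rcases List.mem_append.1 hx with hx | hx
            · exact mem_of_mem_erase (p3 x hx)
            · rw [List.mem_singleton.1 hx]; exact ha)
      have g2 := main 2 (X.erase a) z (by omega) fun p p1 p2 p3 => by
        obtain ⟨D, hD, hD2⟩ := exists_subset_card_eq (s := X.erase a \ p.toFinset) (n := k - 2)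
          (by have := le_card_sdiff p.toFinset (X.erase a)
              have := List.toFinset_card_le p
              omega)
        have n1 := D.nodup_toList
        have n2 : ∀ x ∈ D.toList, x ∈ X.erase a ∧ x ∉ p := fun x hx => by
          simpa using hD (mem_toList.1 hx)
        have n3 := D.length_toList
        have key : ∀ x y r, (x :: y :: r).Nodup → (∀ s ∈ x :: y :: r, s ∈ X.erase a ∧ s ∉ p) →
            r.length + 2 = k - 2 → [x, y].Sublist u ∨ p.Sublist z := by
          intro x y r k1 k2 k3
          have k4 : ([x, y] ++ a :: (p ++ r)).Perm (a :: (p ++ x :: y :: r)) := by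
            refine List.perm_middle.trans (List.Perm.cons _ ?_)
            rw [← List.append_assoc, show p ++ x :: y :: r = (p ++ [x, y]) ++ r by simp]
            exact List.perm_append_comm.append_right _
          have k5 : ∀ s ∈ p ++ x :: y :: r, s ∈ X.erase a := fun s hs => by
            rcases List.mem_append.1 hs with hs | hs
            · exact p3 s hs
            · exact (k2 s hs).1
          rcases split a [x, y] (p ++ r) u v z hv1 (h _ (k4.nodup_iff.2 (List.nodup_cons.2
            ⟨hna _ k5, List.nodup_append.2 ⟨p1, k1, fun s hs t ht e => (k2 t ht).2 (e ▸ hs)⟩⟩))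
            (by simp [p2]; omega) fun s hs => by
              rcases List.mem_cons.1 (k4.subset hs) with rfl | hs
              · exact ha
              · exact mem_of_mem_erase (k5 s hs)) with h' | h'
          · exact Or.inl h'
          · exact Or.inr ((List.sublist_append_left _ _).trans h')
        rcases hl : D.toList with _ | ⟨x, _ | ⟨y, r⟩⟩
        · rw [hl] at n3; simp at n3; omega
        · rw [hl] at n3; simp at n3; omega
        · rw [hl] at n1 n2 n3
          simp only [List.length_cons] at n3
          rcases key x y r n1 n2 (by omega) with c1 | c1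
          · rcases key y x r ((List.Perm.swap _ _ _).nodup_iff.1 n1)
              (fun s hs => n2 s ((List.Perm.swap _ _ _).subset hs)) (by omega) with c2 | c2
            · exact (no_both' _ u hu2 hu3 x y (n2 x (by simp)).1 (n2 y (by simp)).1 c1 c2).elim
            · exact c2
          · exact c1
      have g3 : cnt (X.erase a) (u ++ a :: v) = cnt (X.erase a) u + cnt (X.erase a) v := by
        simp [cnt, List.countP_append]
      have g4 : cnt (X.erase a) (v ++ a :: z) = cnt (X.erase a) v + cnt (X.erase a) z := by
        simp [cnt, List.countP_append]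
      rw [hc] at g1 g2
      simp only [Nat.choose_self] at g2
      omega
    · rcases lt_or_ge k 2 with hk2 | hk2
      · omega
      · have h7 := ih (X.erase a) u (by omega) fun p p1 p2 p3 => sub_snoc a p u v hv
          (h _ (List.nodup_append.2 ⟨p1, by simp, fun x hx y hy e => by
            rw [List.mem_singleton.1 hy] at e
            exact hna p p3 (e ▸ hx)⟩) (by simp [p2]) fun x hx => by
            rcases List.mem_append.1 hx with hx | hx
            · exact mem_of_mem_erase (p3 x hx)
            · rw [List.mem_singleton.1 hx]; exact ha)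
        rw [hc] at h7
        have h8 : k.choose 2 * 2 ≤ k * (k - 1) := by
          rw [Nat.choose_two_right]; exact Nat.div_mul_le_self _ _
        obtain ⟨j, rfl⟩ : ∃ j, k = j + 2 := ⟨k - 2, by omega⟩
        have h10 : 2 ≤ j → m + 2 ≤ cnt (X.erase a) u := by
          intro hj
          simp only [Nat.add_sub_cancel, show j + 2 - 1 = j + 1 by omega] at h7 h8
          have : j + 2 ≤ m := by omega
          nlinarith [Nat.mul_le_mul_left (j + 1) this, Nat.zero_le (j + 2 - 4)]
        have h9 : m + 1 ≤ cnt (X.erase a) u := by
          simp only [Nat.add_sub_cancel, show j + 2 - 1 = j + 1 by omega] at h7 h8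
          have : j + 2 ≤ m := by omega
          nlinarith [Nat.mul_le_mul_left (j + 1) this, Nat.zero_le (j + 2 - 4)]
        omega

theorem result (n k : ℕ) (hn : k ≤ n) (w : List (Fin n)) (h : ContainsAll k w) :
    k * n + max k 2 + max k 4 ≤ w.length + k.choose 2 + 6 := by
  have h1 := main2 k univ w (by simpa using hn) fun p p1 p2 _ => h p p1 p2
  have h2 : cnt univ w ≤ w.length := List.countP_le_length
  simp only [card_univ, Fintype.card_fin] at h1
  omega

end Pool.Agent.Results.MP_9067ea_co.Lower
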